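import Mathlib

set_option autoImplicit false
open scoped commutatorElement

namespace Pool.Agent.R677.Baer

/-- A cyclic subgroup is subnormal when a descending chain of subgroups connects it to a
subnormal one. -/
theorem subnormal_of_chain {G : Type} [Group G] (g : G) (K : ℕ → Subgroup G)
    (h0 : (K 0 ⊔ Subgroup.zpowers g).IsSubnormal)
    (hle : ∀ j, K (j + 1) ≤ K j)
    (hK : ∀ j, ∀ a ∈ K j, ∀ b ∈ K (j + 1), a * b * a⁻¹ ∈ K (j + 1))
    (hg : ∀ j, ∀ a ∈ K j, a * g * a⁻¹ * g⁻¹ ∈ K (j + 1))
    (n : ℕ) (hn : K n = ⊥) : (Subgroup.zpowers g).IsSubnormal := by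
  have key : ∀ j, (K j ⊔ Subgroup.zpowers g).IsSubnormal := by
    intro j
    induction j with
    | zero => exact h0
    | succ j ih =>
      refine Subgroup.IsSubnormal.step _ _ (sup_le_sup_right (hle j) _) ih ?_
      have hconj : ∀ a ∈ K j, ∀ x ∈ K (j + 1) ⊔ Subgroup.zpowers g,
          a * x * a⁻¹ ∈ K (j + 1) ⊔ Subgroup.zpowers g := by
        intro a ha x hx
        have hle' : K (j + 1) ⊔ Subgroup.zpowers g ≤
            (K (j + 1) ⊔ Subgroup.zpowers g).comap (MulAut.conj a).toMonoidHom := by
          refine sup_le ?_ ?_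
          · intro b hb
            change a * b * a⁻¹ ∈ K (j + 1) ⊔ Subgroup.zpowers g
            have h1 : a * b * a⁻¹ ∈ K (j + 1) := hK j a ha b hb
            exact Subgroup.mem_sup_left h1
          · rw [Subgroup.zpowers_le]
            change a * g * a⁻¹ ∈ K (j + 1) ⊔ Subgroup.zpowers g
            have : a * g * a⁻¹ = (a * g * a⁻¹ * g⁻¹) * g := by group
            rw [this]
            have h1 : a * g * a⁻¹ * g⁻¹ ∈ K (j + 1) ⊔ Subgroup.zpowers g :=
              Subgroup.mem_sup_left (hg j a ha)
            have h2 : g ∈ K (j + 1) ⊔ Subgroup.zpowers g :=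
              Subgroup.mem_sup_right (Subgroup.mem_zpowers g)
            exact Subgroup.mul_mem _ h1 h2
        exact hle' hx
      apply Subgroup.normal_subgroupOf_of_le_normalizer
      refine sup_le ?_ ((le_sup_right : Subgroup.zpowers g ≤ K (j + 1) ⊔ _).trans
        Subgroup.le_normalizer)
      intro a ha
      rw [Subgroup.mem_normalizer_iff]
      intro x
      constructor
      · exact hconj a ha x
      · intro h
        have := hconj a⁻¹ (Subgroup.inv_mem _ ha) _ h
        have h2 : a⁻¹ * (a * x * a⁻¹) * a⁻¹⁻¹ = x := by group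
        rwa [h2] at this
  have := key n
  rwa [hn, bot_sup_eq] at this

/-- The semidirect product of a module by a group acting on it. -/
@[ext]
structure SD (V M : Type) where
  v : V
  m : M

namespace SD

set_option linter.unusedSectionVars false

variable {V M : Type} [AddCommGroup V] [Group M] [DistribMulAction M V]

instance : One (SD V M) := ⟨⟨0, 1⟩⟩
instance : Mul (SD V M) := ⟨fun x y => ⟨x.v + x.m • y.v, x.m * y.m⟩⟩
instance : Inv (SD V M) := ⟨fun x => ⟨-(x.m⁻¹ • x.v), x.m⁻¹⟩⟩

theorem one_def : (1 : SD V M) = ⟨0, 1⟩ := rfl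
theorem mul_def (x y : SD V M) : x * y = ⟨x.v + x.m • y.v, x.m * y.m⟩ := rfl
theorem inv_def (x : SD V M) : x⁻¹ = ⟨-(x.m⁻¹ • x.v), x.m⁻¹⟩ := rfl

instance : Group (SD V M) :=
  Group.ofLeftAxioms
    (by
      intro x y z
      simp only [mul_def, smul_add, mul_smul, add_assoc, mul_assoc])
    (by
      intro x
      simp only [mul_def, one_def, one_smul, zero_add, one_mul])
    (by
      intro x
      simp only [mul_def, one_def, inv_def, neg_add_cancel, inv_mul_cancel])

/-- the projection to the acting group -/
def proj : SD V M →* M where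
  toFun x := x.m
  map_one' := rfl
  map_mul' _ _ := rfl

/-- the embedding of the module -/
def inV (v : V) : SD V M := ⟨v, 1⟩
/-- the embedding of the acting group -/
def inM : M →* SD V M where
  toFun m := ⟨0, m⟩
  map_one' := rfl
  map_mul' a b := by rw [mul_def]; simp

theorem inV_add (a b : V) : (inV (a + b) : SD V M) = inV a * inV b := by
  simp [inV, mul_def]

theorem eq_mul (x : SD V M) : x = inV x.v * inM x.m := by
  simp [inV, inM, mul_def]

/-- the commutator of an element of the acting group with an element of the module -/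
theorem comm_MV (m : M) (v : V) : (inM m : SD V M) * inV v * (inM m)⁻¹ * (inV v)⁻¹ =
    inV (m • v - v) := by
  simp [inV, inM, mul_def, inv_def, sub_eq_add_neg]

/-- the commutator of an element of the module with any element -/
theorem comm_V (u : V) (g : SD V M) : (inV u : SD V M) * g * (inV u)⁻¹ * g⁻¹ =
    inV (u - g.m • u) := by
  rcases g with ⟨v, m⟩
  simp only [inV, mul_def, inv_def, one_smul, inv_one, one_mul, mul_one, smul_neg,
    smul_inv_smul, mul_inv_cancel]
  refine SD.ext ?_ rfl
  change u + v + -(m • u) + -v = u - m • u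
  abel

end SD

open SD

variable {V M : Type} [AddCommGroup V] [Group M] [DistribMulAction M V]

/-- the operator `v ↦ m • v - v` -/
def D (m : M) : V →+ V where
  toFun v := m • v - v
  map_zero' := by simp
  map_add' a b := by rw [smul_add]; abel

theorem D_apply (m : M) (v : V) : D m v = m • v - v := rfl

/-- cyclic subgroups of the semidirect product are subnormal -/
theorem baer_SD (hM : ∀ m : M, (Subgroup.zpowers m).IsSubnormal)
    (hu : ∀ m : M, ∃ n : ℕ, ∀ v : V, (D m)^[n] v = 0) (g : SD V M) :
    (Subgroup.zpowers g).IsSubnormal := by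
  have hDm : ∀ (j : ℕ) (v : V), (D g.m)^[j] (g.m • v) = g.m • (D g.m)^[j] v := by
    intro j
    induction j with
    | zero => intro v; rfl
    | succ j ih =>
      intro v
      rw [Function.iterate_succ_apply, Function.iterate_succ_apply, ← ih]
      congr 1
      rw [D_apply, D_apply, smul_sub]
  have hDa : ∀ (j : ℕ) (v w : V), (D g.m)^[j] (v + w) = (D g.m)^[j] v + (D g.m)^[j] w := by
    intro j
    induction j with
    | zero => intro v w; rfl
    | succ j ih =>
      intro v w
      rw [Function.iterate_succ_apply, map_add, ih]; rfl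
  have hDn : ∀ (j : ℕ) (v : V), (D g.m)^[j] (-v) = -(D g.m)^[j] v := by
    intro j
    induction j with
    | zero => intro v; rfl
    | succ j ih =>
      intro v
      rw [Function.iterate_succ_apply, map_neg, ih]; rfl
  have hD0 : ∀ (j : ℕ), (D g.m)^[j] (0 : V) = 0 := by
    intro j
    induction j with
    | zero => rfl
    | succ j ih => rw [Function.iterate_succ_apply, map_zero, ih]
  let K : ℕ → Subgroup (SD V M) := fun j =>
    { carrier := {x | x.m = 1 ∧ ∃ u, x.v = (D g.m)^[j] u}
      one_mem' := ⟨rfl, 0, (hD0 j).symm⟩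
      mul_mem' := by
        rintro x y ⟨hx, u, hu⟩ ⟨hy, w, hw⟩
        refine ⟨?_, u + w, ?_⟩
        · change x.m * y.m = 1
          rw [hx, hy, one_mul]
        · change x.v + x.m • y.v = _
          rw [hx, one_smul, hu, hw, hDa]
      inv_mem' := by
        rintro x ⟨hx, u, hu⟩
        refine ⟨?_, -u, ?_⟩
        · change x.m⁻¹ = 1
          rw [hx, inv_one]
        · change -(x.m⁻¹ • x.v) = _
          rw [hx, inv_one, one_smul, hu, hDn] }
  obtain ⟨n, hn⟩ := hu g.m
  apply subnormal_of_chain g K ?_ ?_ ?_ ?_ n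
  · rw [eq_bot_iff]
    rintro x ⟨hx, u, hu⟩
    rw [hn u] at hu
    rw [Subgroup.mem_bot]
    exact SD.ext hu hx
  · have h1 : K 0 ⊔ Subgroup.zpowers g = (Subgroup.zpowers g.m).comap proj := by
      apply le_antisymm
      · refine sup_le ?_ ?_
        · rintro x ⟨hx, _⟩
          rw [Subgroup.mem_comap]
          change x.m ∈ _
          rw [hx]; exact Subgroup.one_mem _
        · rw [Subgroup.zpowers_le, Subgroup.mem_comap]
          exact Subgroup.mem_zpowers g.m
      · intro x hx
        rw [Subgroup.mem_comap, Subgroup.mem_zpowers_iff] at hx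
        obtain ⟨k, hk⟩ := hx
        have h2 : x = (x * (g ^ k)⁻¹) * g ^ k := by group
        rw [h2]
        refine Subgroup.mul_mem _ (Subgroup.mem_sup_left ?_)
          (Subgroup.mem_sup_right (Subgroup.zpow_mem_zpowers g k))
        refine ⟨?_, _, rfl⟩
        change proj (x * (g ^ k)⁻¹) = 1
        rw [map_mul, map_inv, map_zpow, mul_inv_eq_one]
        exact hk.symm
    rw [h1]
    exact (hM g.m).comap _
  · rintro j x ⟨hx, u, hu⟩
    refine ⟨hx, D g.m u, ?_⟩
    rw [hu, Function.iterate_succ_apply]
  · rintro j a ⟨ha, u, hu⟩ b ⟨hb, w, hw⟩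
    refine ⟨?_, w, ?_⟩
    · change a.m * b.m * a.m⁻¹ = 1
      rw [ha, hb]; simp
    · change a.v + a.m • b.v + (a.m * b.m) • (-(a.m⁻¹ • a.v)) = _
      rw [ha, hb, hw]; simp
  · rintro j a ⟨ha, u, hu⟩
    have ha' : a = inV a.v := SD.ext rfl ha
    rw [ha', comm_V]
    refine ⟨rfl, -u, ?_⟩
    change a.v - g.m • a.v = _
    rw [hu, ← hDm, hDn, Function.iterate_succ_apply, D_apply]
    have := hDa j (g.m • u - u) u
    rw [sub_add_cancel] at this
    rw [this]; abel

/-- the semidirect product has large centralizers -/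
theorem pseudo_SD
    (hA : ∀ (m : M) (v : V), Subgroup.normalClosure {c : M | c * m = m * c ∧ c • v = v} = ⊤)
    (hD : AddSubgroup.closure {w : V | ∃ (m : M) (v : V), w = m • v - v} = ⊤)
    (g : SD V M) :
    Subgroup.normalClosure (Subgroup.centralizer {g} : Set (SD V M)) = ⊤ := by
  set N := Subgroup.normalClosure (Subgroup.centralizer {g} : Set (SD V M)) with hN
  have hM : ∀ m : M, inM m ∈ N := by
    intro m
    have hle : Subgroup.normalClosure {c : M | c * g.m = g.m * c ∧ c • g.v = g.v} ≤
        N.comap inM := by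
      apply Subgroup.normalClosure_le_normal
      rintro c ⟨hc1, hc2⟩
      apply Subgroup.subset_normalClosure
      rw [SetLike.mem_coe, Subgroup.mem_centralizer_singleton_iff]
      rcases g with ⟨v, m⟩
      simp only [inM, MonoidHom.coe_mk, OneHom.coe_mk, mul_def] at *
      refine SD.ext ?_ ?_
      · simp [hc2]
      · exact hc1
    rw [hA] at hle
    exact hle trivial
  have hV : ∀ v : V, inV v ∈ N := by
    intro v
    let W : AddSubgroup V :=
      { carrier := {v | inV v ∈ N}
        zero_mem' := N.one_mem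
        add_mem' := by
          intro a b ha hb
          change inV (a + b) ∈ N
          rw [inV_add]; exact N.mul_mem ha hb
        neg_mem' := by
          intro a ha
          change inV (-a) ∈ N
          have : (inV (-a) : SD V M) = (inV a)⁻¹ := by simp [inV, inv_def]
          rw [this]; exact N.inv_mem ha }
    have hW : W = ⊤ := by
      rw [eq_top_iff, ← hD, AddSubgroup.closure_le]
      rintro w ⟨m, v, rfl⟩
      change inV (m • v - v) ∈ N
      rw [← comm_MV]
      have h1 := hM m
      have h2 : (inV v : SD V M) * (inM m)⁻¹ * (inV v)⁻¹ ∈ N :=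
        Subgroup.normalClosure_normal.conj_mem _ (N.inv_mem h1) _
      have h3 : (inM m : SD V M) * inV v * (inM m)⁻¹ * (inV v)⁻¹ =
          inM m * (inV v * (inM m)⁻¹ * (inV v)⁻¹) := by group
      rw [h3]
      exact N.mul_mem h1 h2
    have : v ∈ W := by rw [hW]; trivial
    exact this
  rw [eq_top_iff]
  intro x _
  rw [eq_mul x]
  exact N.mul_mem (hV _) (hM _)

end Pool.Agent.R677.Baer
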