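import Pool.Agent.R677.Baer.McL

set_option autoImplicit false
open scoped commutatorElement

namespace Pool.Agent.R677.Baer

noncomputable section

/-- the level of a rational number with respect to a finite set of cuts -/
def lev (I : Finset ℚ) (q : ℚ) : ℤ := ((I.filter (· ≤ q)).card : ℤ)

theorem lev_mono (I : Finset ℚ) {a b : ℚ} (h : a ≤ b) : lev I a ≤ lev I b := by
  unfold lev
  exact_mod_cast Finset.card_le_card (fun x hx => by
    rw [Finset.mem_filter] at hx ⊢
    exact ⟨hx.1, hx.2.trans h⟩)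

theorem lev_lt (I : Finset ℚ) {a b : ℚ} (h : a < b) (hb : b ∈ I) : lev I a + 1 ≤ lev I b := by
  unfold lev
  have : (I.filter (· ≤ a)).card < (I.filter (· ≤ b)).card := by
    apply Finset.card_lt_card
    rw [Finset.ssubset_iff_of_subset]
    · exact ⟨b, by simp [hb], by simp [h]⟩
    · intro x hx
      rw [Finset.mem_filter] at hx ⊢
      exact ⟨hx.1, hx.2.trans h.le⟩
  exact_mod_cast this

theorem lev_le (I : Finset ℚ) (a : ℚ) : lev I a ≤ I.card := by
  unfold lev
  exact_mod_cast Finset.card_filter_le _ _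

theorem lev_nonneg (I : Finset ℚ) (a : ℚ) : 0 ≤ lev I a := by
  unfold lev
  exact_mod_cast Nat.zero_le _

/-- the flag attached to a finite set of cuts -/
def F (I : Finset ℚ) (k : ℤ) : AddSubgroup V0 where
  carrier := {v | ∀ r, v r ≠ 0 → lev I r ≤ k}
  zero_mem' := fun r hr => absurd rfl hr
  add_mem' := by
    intro a b ha hb r hr
    by_cases h : a r = 0
    · apply hb
      intro h'
      apply hr
      rw [Finsupp.add_apply, h, h', add_zero]
    · exact ha r h
  neg_mem' := by
    intro a ha r hr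
    apply ha
    intro h
    apply hr
    rw [Finsupp.neg_apply, h, neg_zero]

theorem mem_F (I : Finset ℚ) (k : ℤ) (v : V0) : v ∈ F I k ↔ ∀ r, v r ≠ 0 → lev I r ≤ k := Iff.rfl

theorem F_mono (I : Finset ℚ) {k l : ℤ} (h : k ≤ l) {v : V0} (hv : v ∈ F I k) : v ∈ F I l :=
  fun r hr => (hv r hr).trans h

theorem F_top (I : Finset ℚ) (v : V0) : v ∈ F I I.card := fun r _ => lev_le I r

theorem F_neg (I : Finset ℚ) {k : ℤ} (hk : k < 0) {v : V0} (hv : v ∈ F I k) : v = 0 := by
  ext r
  by_contra h
  have := hv r h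
  have := lev_nonneg I r
  omega

theorem single_mem_F (I : Finset ℚ) (k : ℤ) (a : ℚ) (c : ZMod 2) (h : c ≠ 0 → lev I a ≤ k) :
    Finsupp.single a c ∈ F I k := by
  intro r hr
  rw [Finsupp.single_apply] at hr
  split_ifs at hr with h1
  · subst h1; exact h hr
  · exact absurd rfl hr

/-- the group preserves the flags -/
theorem pres (I : Finset ℚ) (x : M) : ∀ (k : ℤ) (v : V0), v ∈ F I k → x • v ∈ F I k ∧
    x⁻¹ • v ∈ F I k := by
  induction x using induct with
  | ht a b h =>
    intro k v hv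
    have h1 : tM a b h • v ∈ F I k := by
      rw [tM_smul]
      refine (F I k).add_mem hv (single_mem_F I k a _ ?_)
      intro hb
      exact (lev_mono I h.le).trans (hv b hb)
    exact ⟨h1, h1⟩
  | h1 =>
    intro k v hv
    simpa using hv
  | hmul x y hx hy =>
    intro k v hv
    rw [mul_inv_rev, mul_smul, mul_smul]
    exact ⟨(hx k _ (hy k v hv).1).1, (hy k _ (hx k v hv).2).2⟩
  | hinv x hx =>
    intro k v hv
    rw [inv_inv]
    exact ⟨(hx k v hv).2, (hx k v hv).1⟩

/-- the stability subgroups of the flag -/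
def K (I : Finset ℚ) (j : ℕ) : Subgroup M where
  carrier := {x | ∀ (k : ℤ) (v : V0), v ∈ F I k → x • v - v ∈ F I (k - (j + 1))}
  one_mem' := by
    intro k v _
    rw [one_smul, sub_self]
    exact (F I _).zero_mem
  mul_mem' := by
    intro x y hx hy k v hv
    have h1 : y • v ∈ F I k := (pres I y k v hv).1
    have h2 : (x * y) • v - v = (x • (y • v) - y • v) + (y • v - v) := by
      rw [mul_smul]; abel
    rw [h2]
    exact (F I _).add_mem (hx k _ h1) (hy k v hv)
  inv_mem' := by
    intro x hx k v hv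
    have h1 : x⁻¹ • v ∈ F I k := (pres I x k v hv).2
    have h2 := hx k _ h1
    rw [smul_inv_smul] at h2
    have := (F I _).neg_mem h2
    rwa [neg_sub] at this

theorem mem_K (I : Finset ℚ) (j : ℕ) (x : M) : x ∈ K I j ↔
    ∀ (k : ℤ) (v : V0), v ∈ F I k → x • v - v ∈ F I (k - (j + 1)) := Iff.rfl

theorem K_normal (I : Finset ℚ) (j : ℕ) : (K I j).Normal := by
  constructor
  intro x hx g k v hv
  have h1 : g⁻¹ • v ∈ F I k := (pres I g k v hv).2
  have h2 := (pres I g _ _ (hx k _ h1)).1
  rw [smul_sub, smul_inv_smul] at h2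
  rwa [mul_smul, mul_smul]

/-- every element is a product of transvections with indices in a finite set -/
theorem exists_I (x : M) : ∃ I : Finset ℚ, x ∈ K I 0 := by
  have h : ∃ I : Finset ℚ, x ∈ Subgroup.closure
      {g : M | ∃ a b, ∃ h : a < b, a ∈ I ∧ b ∈ I ∧ g = tM a b h} := by
    induction x using induct with
    | ht a b h => exact ⟨{a, b}, Subgroup.subset_closure ⟨a, b, h, by simp, by simp, rfl⟩⟩
    | h1 => exact ⟨∅, Subgroup.one_mem _⟩
    | hmul x y hx hy =>
      obtain ⟨I, hI⟩ := hx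
      obtain ⟨J, hJ⟩ := hy
      refine ⟨I ∪ J, Subgroup.mul_mem _ (Subgroup.closure_mono ?_ hI)
        (Subgroup.closure_mono ?_ hJ)⟩
      · rintro g ⟨a, b, h, ha, hb, rfl⟩
        exact ⟨a, b, h, Finset.mem_union_left _ ha, Finset.mem_union_left _ hb, rfl⟩
      · rintro g ⟨a, b, h, ha, hb, rfl⟩
        exact ⟨a, b, h, Finset.mem_union_right _ ha, Finset.mem_union_right _ hb, rfl⟩
    | hinv x hx =>
      obtain ⟨I, hI⟩ := hx
      exact ⟨I, Subgroup.inv_mem _ hI⟩
  obtain ⟨I, hI⟩ := h
  refine ⟨I, ?_⟩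
  have hle : Subgroup.closure {g : M | ∃ a b, ∃ h : a < b, a ∈ I ∧ b ∈ I ∧ g = tM a b h} ≤
      K I 0 := by
    rw [Subgroup.closure_le]
    rintro g ⟨a, b, h, ha, hb, rfl⟩ k v hv
    rw [tM_smul, add_sub_cancel_left]
    apply single_mem_F
    intro h1
    have := lev_lt I h hb
    have := hv b h1
    push_cast
    omega
  exact hle hI

/-- cyclic subgroups of McLain's group are subnormal -/
theorem baer_M (m : M) : (Subgroup.zpowers m).IsSubnormal := by
  obtain ⟨I, hI⟩ := exists_I m
  apply subnormal_of_chain m (K I) ?_ ?_ ?_ ?_ I.card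
  · rw [eq_bot_iff]
    intro x hx
    rw [Subgroup.mem_bot]
    apply Subtype.ext
    apply LinearEquiv.ext
    intro v
    have h1 := hx I.card v (F_top I v)
    have h2 := F_neg I (by omega) h1
    exact sub_eq_zero.1 h2
  · have : K I 0 ⊔ Subgroup.zpowers m = K I 0 := by
      rw [sup_eq_left, Subgroup.zpowers_le]; exact hI
    rw [this]
    exact (K_normal I 0).isSubnormal
  · intro j x hx k v hv
    refine F_mono I ?_ (hx k v hv)
    push_cast
    omega
  · intro j a _ b hb
    exact (K_normal I (j + 1)).conj_mem b hb a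
  · intro j a ha k v hv
    set w := a⁻¹ • (m⁻¹ • v) with hw
    have hwF : w ∈ F I k := (pres I a k _ (pres I m k v hv).2).2
    have h1 : (a * m * a⁻¹ * m⁻¹) • v - v = (a • (m • w - w) - (m • w - w)) -
        (m • (a • w - w) - (a • w - w)) := by
      have e1 : (a * m * a⁻¹ * m⁻¹) • v = a • (m • w) := by rw [hw, mul_smul, mul_smul, mul_smul]
      have e2 : v = m • (a • w) := by rw [hw, smul_inv_smul, smul_inv_smul]
      rw [e1]
      conv_lhs => rw [e2]
      rw [smul_sub, smul_sub]
      abel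
    rw [h1]
    have h2 := ha _ _ (hI k w hwF)
    have h3 := hI _ _ (ha k w hwF)
    refine (F I _).sub_mem (F_mono I ?_ h2) (F_mono I ?_ h3)
    · push_cast; omega
    · push_cast; omega

/-- iterating `m - 1` in characteristic two -/
theorem D_iter {V N : Type} [AddCommGroup V] [Group N] [DistribMulAction N V]
    (h2 : ∀ v : V, v + v = 0) (m : N) (k : ℕ) : ∀ v : V, (D m)^[2 ^ k] v = m ^ 2 ^ k • v - v := by
  induction k with
  | zero => intro v; rw [pow_zero, pow_one]; rfl
  | succ k ih =>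
    intro v
    have e : 2 ^ (k + 1) = 2 ^ k + 2 ^ k := by ring
    have hab : (D m)^[2 ^ k] (m ^ 2 ^ k • v - v) =
        m ^ 2 ^ k • (m ^ 2 ^ k • v - v) - (m ^ 2 ^ k • v - v) := ih _
    rw [e, Function.iterate_add_apply, ih v, hab, pow_add, mul_smul, smul_sub]
    have h := h2 (v - m ^ 2 ^ k • v)
    calc m ^ 2 ^ k • m ^ 2 ^ k • v - m ^ 2 ^ k • v - (m ^ 2 ^ k • v - v) =
        m ^ 2 ^ k • m ^ 2 ^ k • v - v + ((v - m ^ 2 ^ k • v) + (v - m ^ 2 ^ k • v)) := by abel
      _ = _ := by rw [h, add_zero]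

/-- McLain's group is a `2`-group -/
theorem pow_M (m : M) : ∃ k : ℕ, m ^ 2 ^ k = 1 := by
  obtain ⟨I, hI⟩ := exists_I m
  have h1 : ∀ (n : ℕ) (v : V0), (D m)^[n] v ∈ F I (I.card - n) := by
    intro n
    induction n with
    | zero => intro v; simpa using F_top I v
    | succ n ih =>
      intro v
      rw [Function.iterate_succ_apply']
      have := hI _ _ (ih v)
      refine F_mono I ?_ this
      push_cast; omega
  refine ⟨I.card, ?_⟩
  apply Subtype.ext
  apply LinearEquiv.ext
  intro v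
  have h2 := h1 (2 ^ I.card) v
  have h3 : I.card < 2 ^ I.card := Nat.lt_two_pow_self
  have h4 := F_neg I (by
    have : ((I.card : ℕ) : ℤ) < ((2 ^ I.card : ℕ) : ℤ) := by exact_mod_cast h3
    omega) h2
  rw [D_iter add_self_V0] at h4
  exact sub_eq_zero.1 h4

end

end Pool.Agent.R677.Baer
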