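import Pool.Agent.R677.Baer.Abs

set_option autoImplicit false
open scoped commutatorElement

namespace Pool.Agent.R677.Baer

noncomputable section

/-- the vector space over the field of two elements with basis the rationals -/
abbrev V0 : Type := ℚ →₀ ZMod 2

theorem add_self_V0 (v : V0) : v + v = 0 := by
  ext i
  rw [Finsupp.add_apply]
  exact CharTwo.add_self_eq_zero _

/-- elementary transvection -/
def tl (a b : ℚ) : V0 →ₗ[ZMod 2] V0 :=
  LinearMap.id + (Finsupp.lsingle a).comp (Finsupp.lapply b)

theorem tl_apply (a b : ℚ) (v : V0) : tl a b v = v + Finsupp.single a (v b) := rfl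

theorem tl_invol (a b : ℚ) (h : a ≠ b) : Function.Involutive (tl a b) := by
  intro v
  rw [tl_apply, tl_apply, Finsupp.add_apply, Finsupp.single_eq_of_ne h.symm, add_zero, add_assoc,
    add_self_V0, add_zero]

/-- elementary transvection, as an equivalence -/
def t (a b : ℚ) (h : a < b) : V0 ≃ₗ[ZMod 2] V0 := LinearEquiv.ofInvolutive (tl a b) (tl_invol a b h.ne)

theorem t_apply (a b : ℚ) (h : a < b) (v : V0) : t a b h v = v + Finsupp.single a (v b) := rfl

theorem t_inv (a b : ℚ) (h : a < b) : (t a b h)⁻¹ = t a b h := rfl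

theorem t_fix (a b : ℚ) (h : a < b) (v : V0) (hv : v b = 0) : t a b h v = v := by
  rw [t_apply, hv, Finsupp.single_zero, add_zero]

theorem steinberg (a c b : ℚ) (h : a < c) (h' : c < b) :
    ⁅t a c h, t c b h'⁆ = t a b (h.trans h') := by
  rw [commutatorElement_def, t_inv, t_inv]
  apply LinearEquiv.ext
  intro v
  have hac := h.ne
  have hcb := h'.ne
  have hab := (h.trans h').ne
  change t a c h (t c b h' (t a c h (t c b h' v))) = t a b _ v
  have e1 : t c b h' v = v + Finsupp.single c (v b) := rfl
  have e2 : t a c h (v + Finsupp.single c (v b)) =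
      v + Finsupp.single c (v b) + Finsupp.single a (v c + v b) := by
    rw [t_apply, Finsupp.add_apply, Finsupp.single_eq_same]
  have e3 : t c b h' (v + Finsupp.single c (v b) + Finsupp.single a (v c + v b)) =
      v + Finsupp.single a (v c + v b) := by
    rw [t_apply, Finsupp.add_apply, Finsupp.add_apply, Finsupp.single_eq_of_ne hcb.symm,
      Finsupp.single_eq_of_ne hab.symm, add_zero, add_zero]
    calc v + Finsupp.single c (v b) + Finsupp.single a (v c + v b) + Finsupp.single c (v b) =
        v + Finsupp.single a (v c + v b) + (Finsupp.single c (v b) + Finsupp.single c (v b)) := by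
          abel
      _ = _ := by rw [add_self_V0, add_zero]
  have e4 : t a c h (v + Finsupp.single a (v c + v b)) = v + Finsupp.single a (v b) := by
    rw [t_apply, Finsupp.add_apply, Finsupp.single_eq_of_ne hac.symm, add_zero, Finsupp.single_add]
    calc v + (Finsupp.single a (v c) + Finsupp.single a (v b)) + Finsupp.single a (v c) =
        v + Finsupp.single a (v b) + (Finsupp.single a (v c) + Finsupp.single a (v c)) := by
          abel
      _ = _ := by rw [add_self_V0, add_zero]
  rw [e1, e2, e3, e4, t_apply]

theorem commute_t (a b c d : ℚ) (h : a < b) (h' : c < d) (h1 : a ≠ d) (h2 : b ≠ c) :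
    Commute (t a b h) (t c d h') := by
  apply LinearEquiv.ext
  intro v
  change t a b h (t c d h' v) = t c d h' (t a b h v)
  rw [t_apply, t_apply, t_apply, t_apply, Finsupp.add_apply, Finsupp.add_apply,
    Finsupp.single_eq_of_ne h2, Finsupp.single_eq_of_ne h1.symm, add_zero, add_zero]
  abel

/-- McLain's group over the rationals, with coefficients in the field of two elements -/
def M : Subgroup (V0 ≃ₗ[ZMod 2] V0) := Subgroup.closure {g | ∃ a b, ∃ h : a < b, g = t a b h}

/-- generators of McLain's group -/
def tM (a b : ℚ) (h : a < b) : M := ⟨t a b h, Subgroup.subset_closure ⟨a, b, h, rfl⟩⟩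

theorem smul_def (m : M) (v : V0) : m • v = (m : V0 ≃ₗ[ZMod 2] V0) v := rfl

theorem tM_smul (a b : ℚ) (h : a < b) (v : V0) : tM a b h • v = v + Finsupp.single a (v b) := rfl

theorem steinbergM (a c b : ℚ) (h : a < c) (h' : c < b) :
    ⁅tM a c h, tM c b h'⁆ = tM a b (h.trans h') := Subtype.ext (steinberg a c b h h')

theorem induct {p : M → Prop} (ht : ∀ a b h, p (tM a b h)) (h1 : p 1)
    (hmul : ∀ x y, p x → p y → p (x * y)) (hinv : ∀ x, p x → p x⁻¹) (x : M) : p x := by
  obtain ⟨x, hx⟩ := x
  refine Subgroup.closure_induction (p := fun x hx => p ⟨x, hx⟩) ?_ ?_ ?_ ?_ hx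
  · rintro x ⟨a, b, h, rfl⟩
    exact ht a b h
  · exact h1
  · intro x y hx hy h1 h2
    exact hmul _ _ h1 h2
  · intro x hx h1
    exact hinv _ h1

end

end Pool.Agent.R677.Baer
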