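import Pool.Agent.R677.Baer.Flag

set_option autoImplicit false
open scoped commutatorElement

namespace Pool.Agent.R677.Baer

noncomputable section

/-- the permutation module on the vectors of `V0`, with coefficients in `V0` -/
def VV : Type := V0 →₀ V0

instance : AddCommGroup VV := inferInstanceAs (AddCommGroup (V0 →₀ V0))

/-- the identity map -/
def toF (f : VV) : V0 →₀ V0 := f
/-- the identity map -/
def ofF (f : V0 →₀ V0) : VV := f

/-- a basic element -/
def sg (x u : V0) : VV := ofF (Finsupp.single x u)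

/-- evaluation -/
def ev (f : VV) (x : V0) : V0 := toF f x

theorem ext_VV {f g : VV} (h : ∀ x, ev f x = ev g x) : f = g :=
  Finsupp.ext (f := toF f) (g := toF g) h

theorem ev_add (f g : VV) (x : V0) : ev (f + g) x = ev f x + ev g x := rfl
theorem ev_zero (x : V0) : ev 0 x = 0 := rfl
theorem ev_sub (f g : VV) (x : V0) : ev (f - g) x = ev f x - ev g x := rfl

instance : SMul M VV := ⟨fun m f => ofF (Finsupp.equivMapDomain (m : V0 ≃ₗ[ZMod 2] V0).toEquiv
  (Finsupp.mapRange (m : V0 ≃ₗ[ZMod 2] V0) (map_zero _) (toF f)))⟩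

theorem ev_smul (m : M) (f : VV) (x : V0) : ev (m • f) x = m • ev f (m⁻¹ • x) := rfl

instance : DistribMulAction M VV where
  one_smul f := ext_VV fun x => by rw [ev_smul, inv_one, one_smul, one_smul]
  mul_smul a b f := ext_VV fun x => by
    rw [ev_smul, ev_smul, ev_smul, mul_inv_rev, mul_smul, mul_smul]
  smul_zero a := ext_VV fun x => by rw [ev_smul, ev_zero, ev_zero, smul_zero]
  smul_add a f g := ext_VV fun x => by rw [ev_smul, ev_add, ev_add, ev_smul, ev_smul, smul_add]

theorem add_self_VV (f : VV) : f + f = 0 := ext_VV fun x => by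
  rw [ev_add, ev_zero, add_self_V0]

theorem ev_sg_same (x u : V0) : ev (sg x u) x = u :=
  Finsupp.single_eq_same (a := x) (b := u)

theorem ev_sg_ne {x y : V0} (u : V0) (h : y ≠ x) : ev (sg x u) y = 0 :=
  Finsupp.single_eq_of_ne (a := x) (a' := y) (b := u) h

theorem smul_sg (m : M) (x u : V0) : m • sg x u = sg (m • x) (m • u) := by
  apply ext_VV
  intro y
  rw [ev_smul]
  by_cases h : y = m • x
  · subst h
    rw [inv_smul_smul, ev_sg_same, ev_sg_same]
  · rw [ev_sg_ne _ h, ev_sg_ne, smul_zero]
    intro h'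
    apply h
    rw [← h', smul_inv_smul]

theorem sg_add (x u w : V0) : sg x (u + w) = sg x u + sg x w := Finsupp.single_add _ _ _
theorem sg_zero (x : V0) : sg x 0 = 0 := Finsupp.single_zero _

/-- there is a rational above `a` and outside a finite set -/
theorem exists_above (a : ℚ) (S : Finset ℚ) : ∃ b, a < b ∧ b ∉ S := by
  obtain ⟨b, hb, hb'⟩ := (Set.Ioi_infinite a).exists_notMem_finset S
  exact ⟨b, hb, hb'⟩

/-- there is a rational strictly between `a` and `b` outside a finite set -/
theorem exists_between' (a b : ℚ) (h : a < b) (S : Finset ℚ) : ∃ c, a < c ∧ c < b ∧ c ∉ S := by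
  obtain ⟨c, hc, hc'⟩ := (Set.Ioo_infinite h).exists_notMem_finset S
  exact ⟨c, hc.1, hc.2, hc'⟩

/-- the module is generated by commutators -/
theorem hD : AddSubgroup.closure {w : VV | ∃ (m : M) (v : VV), w = m • v - v} = ⊤ := by
  set C := AddSubgroup.closure {w : VV | ∃ (m : M) (v : VV), w = m • v - v} with hC
  have h1 : ∀ (x : V0) (a : ℚ), sg x (Finsupp.single a 1) ∈ C := by
    intro x a
    obtain ⟨b, hab, hb⟩ := exists_above a x.support
    have hxb : x b = 0 := by simpa using hb
    apply AddSubgroup.subset_closure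
    refine ⟨tM a b hab, sg x (Finsupp.single b 1), ?_⟩
    rw [smul_sg, tM_smul, tM_smul, hxb, Finsupp.single_zero, add_zero, Finsupp.single_eq_same,
      sg_add, add_sub_cancel_left]
  have h2 : ∀ (x u : V0), sg x u ∈ C := by
    intro x u
    induction u using Finsupp.induction_linear with
    | zero => rw [sg_zero]; exact C.zero_mem
    | add u w hu hw => rw [sg_add]; exact C.add_mem hu hw
    | single a c =>
      have hc : c = 0 ∨ c = 1 := by revert c; decide
      rcases hc with rfl | rfl
      · rw [Finsupp.single_zero, sg_zero]; exact C.zero_mem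
      · exact h1 x a
  rw [eq_top_iff]
  rintro f -
  have h3 : ∀ f : V0 →₀ V0, ofF f ∈ C := by
    intro f
    induction f using Finsupp.induction_linear with
    | zero => exact C.zero_mem
    | add u w hu hw => exact C.add_mem hu hw
    | single x u => exact h2 x u
  exact h3 f

/-- generators with indices outside a finite set commute with a given element -/
theorem comm_fin (m : M) : ∃ I : Finset ℚ, ∀ a b (h : a < b), a ∉ I → b ∉ I →
    tM a b h * m = m * tM a b h := by
  induction m using induct with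
  | ht c d h' =>
    refine ⟨{c, d}, fun a b h ha hb => ?_⟩
    simp only [Finset.mem_insert, Finset.mem_singleton, not_or] at ha hb
    exact Subtype.ext (commute_t a b c d h h' ha.2 hb.1)
  | h1 => exact ⟨∅, fun a b h _ _ => by rw [one_mul, mul_one]⟩
  | hmul x y hx hy =>
    obtain ⟨I, hI⟩ := hx
    obtain ⟨J, hJ⟩ := hy
    refine ⟨I ∪ J, fun a b h ha hb => ?_⟩
    rw [Finset.mem_union, not_or] at ha hb
    have h1 : Commute (tM a b h) x := hI a b h ha.1 hb.1
    have h2 : Commute (tM a b h) y := hJ a b h ha.2 hb.2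
    exact h1.mul_right h2
  | hinv x hx =>
    obtain ⟨I, hI⟩ := hx
    refine ⟨I, fun a b h ha hb => ?_⟩
    have h1 : Commute (tM a b h) x := hI a b h ha hb
    exact h1.inv_right

/-- generators with indices outside a finite set fix a given element of the module -/
theorem fix_fin (f : VV) : ∃ I : Finset ℚ, ∀ a b (h : a < b), a ∉ I → b ∉ I →
    tM a b h • f = f := by
  have h3 : ∀ f : V0 →₀ V0, ∃ I : Finset ℚ, ∀ a b (h : a < b), a ∉ I → b ∉ I →
    tM a b h • ofF f = ofF f := by
    intro f
    induction f using Finsupp.induction_linear with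
    | zero => exact ⟨∅, fun a b h _ _ => smul_zero (A := VV) _⟩
    | add u w hu hw =>
      obtain ⟨I, hI⟩ := hu
      obtain ⟨J, hJ⟩ := hw
      refine ⟨I ∪ J, fun a b h ha hb => ?_⟩
      rw [Finset.mem_union, not_or] at ha hb
      change tM a b h • (ofF u + ofF w) = ofF u + ofF w
      rw [smul_add, hI a b h ha.1 hb.1, hJ a b h ha.2 hb.2]
    | single x u =>
      refine ⟨x.support ∪ u.support, fun a b h ha hb => ?_⟩
      rw [Finset.mem_union, not_or] at ha hb
      change tM a b h • sg x u = sg x u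
      have hx : x b = 0 := by simpa using hb.1
      have hu : u b = 0 := by simpa using hb.2
      rw [smul_sg, tM_smul, tM_smul, hx, hu, Finsupp.single_zero, add_zero, add_zero]
  exact h3 f

/-- the normal closure of the generators with indices outside a finite set is everything -/
theorem normal_fin (N : Subgroup M) (hN : N.Normal) (I : Finset ℚ)
    (hI : ∀ a b (h : a < b), a ∉ I → b ∉ I → tM a b h ∈ N) : N = ⊤ := by
  have h1 : ∀ a b (h : a < b), a ∉ I → tM a b h ∈ N := by
    intro a b h ha
    obtain ⟨c, hac, hcb, hc⟩ := exists_between' a b h I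
    rw [← steinbergM a c b hac hcb, commutatorElement_def, mul_assoc, mul_assoc]
    exact N.mul_mem (hI a c hac ha hc) (by
      rw [← mul_assoc]
      exact hN.conj_mem _ (N.inv_mem (hI a c hac ha hc)) _)
  have h2 : ∀ a b (h : a < b), tM a b h ∈ N := by
    intro a b h
    obtain ⟨c, hac, hcb, hc⟩ := exists_between' a b h I
    rw [← steinbergM a c b hac hcb, commutatorElement_def]
    exact N.mul_mem (hN.conj_mem _ (h1 c b hcb hc) _) (N.inv_mem (h1 c b hcb hc))
  rw [eq_top_iff]
  intro x _
  induction x using induct with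
  | ht a b h => exact h2 a b h
  | h1 => exact N.one_mem
  | hmul x y hx hy => exact N.mul_mem (hx trivial) (hy trivial)
  | hinv x hx => exact N.inv_mem (hx trivial)

theorem hA (m : M) (v : VV) :
    Subgroup.normalClosure {c : M | c * m = m * c ∧ c • v = v} = ⊤ := by
  obtain ⟨I, hI⟩ := comm_fin m
  obtain ⟨J, hJ⟩ := fix_fin v
  apply normal_fin _ Subgroup.normalClosure_normal (I ∪ J)
  intro a b h ha hb
  rw [Finset.mem_union, not_or] at ha hb
  apply Subgroup.subset_normalClosure
  exact ⟨hI a b h ha.1 hb.1, hJ a b h ha.2 hb.2⟩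

/-- unipotence -/
theorem hu (m : M) : ∃ n : ℕ, ∀ v : VV, (D m)^[n] v = 0 := by
  obtain ⟨k, hk⟩ := pow_M m
  refine ⟨2 ^ k, fun v => ?_⟩
  rw [D_iter add_self_VV, hk, one_smul, sub_self]

/-- the points used to detect non-nilpotence -/
def pt (j : ℕ) : V0 := Finsupp.single 1 1 + ∑ i ∈ Finset.range j, Finsupp.single (-(i : ℚ) - 1) 1

/-- the transvections used to detect non-nilpotence -/
def nn (i : ℕ) : M := tM (-(i : ℚ) - 1) 1 (by
  have : (0 : ℚ) ≤ i := Nat.cast_nonneg i
  linarith)

/-- iterated commutators -/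
def yy : ℕ → VV
  | 0 => sg (pt 0) (Finsupp.single 2 1)
  | j + 1 => nn j • yy j - yy j

theorem pt_one (j : ℕ) : pt j 1 = 1 := by
  unfold pt
  rw [Finsupp.add_apply, Finsupp.single_eq_same, Finsupp.finsetSum_apply, Finset.sum_eq_zero,
    add_zero]
  intro i _
  apply Finsupp.single_eq_of_ne
  have : (0 : ℚ) ≤ i := Nat.cast_nonneg i
  intro h
  linarith

theorem pt_far (j i : ℕ) (h : j ≤ i) : pt j (-(i : ℚ) - 1) = 0 := by
  unfold pt
  have hi : (0 : ℚ) ≤ i := Nat.cast_nonneg i
  rw [Finsupp.add_apply, Finsupp.single_eq_of_ne (by intro h; linarith),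
    Finsupp.finsetSum_apply, Finset.sum_eq_zero, add_zero]
  intro l hl
  rw [Finset.mem_range] at hl
  apply Finsupp.single_eq_of_ne
  intro h'
  have h2 : (i : ℚ) = l := by linarith
  have h3 : i = l := by exact_mod_cast h2
  omega

theorem nn_pt (j : ℕ) : nn j • pt j = pt (j + 1) := by
  unfold nn
  rw [tM_smul, pt_one]
  unfold pt
  rw [Finset.sum_range_succ, add_assoc]

theorem yy_spec (j : ℕ) : ev (yy j) (pt j) = Finsupp.single 2 1 ∧
    ∀ x : V0, (∃ i, j ≤ i ∧ x (-(i : ℚ) - 1) ≠ 0) → ev (yy j) x = 0 := by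
  induction j with
  | zero =>
    refine ⟨ev_sg_same _ _, ?_⟩
    rintro x ⟨i, hi, hx⟩
    apply ev_sg_ne
    rintro rfl
    exact hx (pt_far 0 i hi)
  | succ j ih =>
    obtain ⟨ih1, ih2⟩ := ih
    constructor
    · change ev (nn j • yy j - yy j) (pt (j + 1)) = _
      rw [ev_sub, ev_smul, ← nn_pt, inv_smul_smul, ih1, nn_pt]
      rw [ih2 (pt (j + 1)) ⟨j, le_rfl, ?_⟩, sub_zero]
      · unfold nn
        rw [tM_smul, Finsupp.single_eq_of_ne (by norm_num), Finsupp.single_zero, add_zero]
      · rw [← nn_pt]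
        unfold nn
        rw [tM_smul, Finsupp.add_apply, pt_far j j le_rfl, pt_one, Finsupp.single_eq_same]
        simp
    · rintro x ⟨i, hi, hx⟩
      change ev (nn j • yy j - yy j) x = 0
      rw [ev_sub, ev_smul, ih2 x ⟨i, by omega, hx⟩, ih2 _ ⟨i, by omega, ?_⟩, smul_zero, sub_zero]
      have h1 : (nn j)⁻¹ • x = x + Finsupp.single (-(j : ℚ) - 1) (x 1) := rfl
      rw [h1, Finsupp.add_apply, Finsupp.single_eq_of_ne, add_zero]
      · exact hx
      · intro h'
        have h2 : (i : ℚ) = j := by linarith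
        have h3 : i = j := by exact_mod_cast h2
        omega

theorem nn_mem_of (N : Subgroup (SD VV M)) (hN : N.Normal)
    (h : SD.inM (tM 0 1 one_pos) ∈ N) (j : ℕ) : SD.inM (nn j) ∈ N := by
  have hj : (-(j : ℚ) - 1) < 0 := by
    have : (0 : ℚ) ≤ j := Nat.cast_nonneg j
    linarith
  have h1 : nn j = ⁅tM (-(j : ℚ) - 1) 0 hj, tM 0 1 one_pos⁆ := (steinbergM _ 0 1 hj one_pos).symm
  rw [h1, commutatorElement_def, map_mul, map_mul, map_mul, map_inv, map_inv]
  exact N.mul_mem (hN.conj_mem _ h _) (N.inv_mem h)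

theorem yy_ne (j : ℕ) : yy j ≠ 0 := by
  intro h
  have h1 := (yy_spec j).1
  rw [h, ev_zero] at h1
  have h2 : (Finsupp.single 2 1 : V0) 2 = 0 := by rw [← h1]; rfl
  rw [Finsupp.single_eq_same] at h2
  exact one_ne_zero h2

/-- the semidirect product is not a Fitting group -/
theorem not_fitting (N : Subgroup (SD VV M)) (hN : N.Normal) (hnil : Group.IsNilpotent N) :
    SD.inM (tM 0 1 one_pos) ∉ N := by
  intro h
  have hn := nn_mem_of N hN h
  have key : ∀ j : ℕ, SD.inV (yy (j + 1)) ∈ N.lowerCentralSeries j := by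
    intro j
    induction j with
    | zero =>
      change SD.inV (nn 0 • yy 0 - yy 0) ∈ N
      rw [← SD.comm_MV, mul_assoc, mul_assoc]
      exact N.mul_mem (hn 0) (by
        rw [← mul_assoc]
        exact hN.conj_mem _ (N.inv_mem (hn 0)) _)
    | succ j ih =>
      change SD.inV (nn (j + 1) • yy (j + 1) - yy (j + 1)) ∈ _
      rw [← SD.comm_MV, Subgroup.lowerCentralSeries_succ]
      have h1 := Subgroup.commutator_mem_commutator ih (hn (j + 1))
      have h2 := Subgroup.inv_mem _ h1
      rw [commutatorElement_inv, commutatorElement_def] at h2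
      exact h2
  obtain ⟨k, hk⟩ := (Subgroup.isNilpotent_iff_lowerCentralSeries N).1 hnil
  have h1 := key k
  rw [hk, Subgroup.mem_bot] at h1
  exact yy_ne (k + 1) (congrArg SD.v h1)

end

end Pool.Agent.R677.Baer
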